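import Pool.Agent.H27.RM.Defs
import Pool.Agent.H33.KR.Absorb

/-! # ABSORPTION (helper33): Phase 1, Phase 2 of proofs 344

`w' = w` restricted to `A 0` does not occur here; the degrees to `w'` are used only to find, for every
`v ∈ L`, a good `c`-chain inside `{y ∈ A 0 | col v y = c}`. -/

namespace Pool.Agent.H27.RM

open Finset Classical Pool.Agent.H21.Poly Pool.Agent.H21.Tile Pool.Agent.H99.KR

theorem absorb_core {α : Type*} [Fintype α] [Nonempty α] {k : ℕ} (F : (r : ℕ) → SimpleGraph (Fin r))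
    (Δ : ℕ) (hdeg : ∀ r x, (univ.filter ((F r).Adj x)).card ≤ Δ)
    (col : α → α → Fin k) (hsymm : ∀ a b, col a b = col b a) (w : α → ℝ) (hw0 : ∀ x, 0 ≤ w x)
    (hw1 : ∀ x, w x ≤ 1) (b : ℕ) (β ρ m0 : ℝ) (hβ : 0 < β) (hρ : 0 ≤ ρ) (hm0 : 0 < m0)
    (hρm : Δ * (ρ * mass w) ≤ β * m0 / 4) (c : Fin k) (A : ℕ → Finset α) (T : Finset ℕ)
    (hχ : GC col w c Δ b β ρ m0 univ A T) (L U : Finset α) (hLw : ∀ v ∈ L, w v = 0)
    (hL : ∀ v ∈ L, ∃ A' T', GC col w c Δ b β ρ m0 ((A 0).filter (fun y => col v y = c)) A' T')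
    (hsize : (U.card : ℝ) + MD Δ * L.card ≤ β * m0 / 4) :
    ∃ Y : Finset α, (∀ y ∈ Y, w y ≠ 0) ∧ Disjoint Y U ∧ Y.card ≤ MD Δ * L.card ∧
      MonoSet F col (L ∪ Y) := by
  obtain ⟨hA, _, hmA, hT, hTc, hgood⟩ := hχ
  have hA0 : mu w (A 0) ≤ mass w := by
    unfold mu mass
    exact sum_le_sum_of_subset_of_nonneg (subset_univ _) fun x _ _ => hw0 x
  have hΔ0 : (0:ℝ) ≤ Δ := Nat.cast_nonneg _
  have h1 : Δ * (ρ * mu w (A 0)) ≤ β * m0 / 4 :=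
    (mul_le_mul_of_nonneg_left (mul_le_mul_of_nonneg_left hA0 hρ) hΔ0).trans hρm
  have h2 : Δ * ρ ≤ β / 4 := by
    have h3 : Δ * ρ * m0 ≤ β / 4 * m0 := by
      calc Δ * ρ * m0 = Δ * (ρ * m0) := by ring
        _ ≤ Δ * (ρ * mass w) :=
            mul_le_mul_of_nonneg_left (mul_le_mul_of_nonneg_left ((hmA 0).trans hA0) hρ) hΔ0
        _ ≤ β * m0 / 4 := hρm
        _ = β / 4 * m0 := by ring
    exact le_of_mul_le_mul_right h3 hm0
  refine Pool.Agent.H33.KR.absorb_core F hdeg col hsymm w hw0 hw1 b β ρ m0 hρ hβ hm0 h2 A hA c T hT hTc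
    hgood hmA L U hLw (fun v hv => ?_) (by linarith)
  obtain ⟨A', T', g1, g2, g3, g4, g5, g6⟩ := hL v hv
  exact ⟨A', T', g1, g4, g5, g6, g2, g3⟩

end Pool.Agent.H27.RM
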