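import Pool.Agent.H99.KR.Defs

/-! # Good chains of a colour (proofs 344) -/

namespace Pool.Agent.H27.RM

open Finset Classical Pool.Agent.H21.Poly Pool.Agent.H21.Tile Pool.Agent.H99.KR

variable {α : Type*} {k : ℕ}

/-- GOOD `c`-CHAIN inside `Y`: increasing sets `A i ⊆ Y` of measure at least `m0`, at least
`b + Δ` times `T`, the empty history is good of order `Δ`. -/
def GC (col : α → α → Fin k) (w : α → ℝ) (c : Fin k) (Δ b : ℕ) (β ρ m0 : ℝ) (Y : Finset α)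
    (A : ℕ → Finset α) (T : Finset ℕ) : Prop :=
  (∀ i j, i ≤ j → A i ⊆ A j) ∧ (∀ i, A i ⊆ Y) ∧ (∀ i, m0 ≤ mu w (A i)) ∧ (∀ i ∈ T, 1 ≤ i) ∧
    b + Δ ≤ T.card ∧ Good col w c A β ρ T b Δ ∅

lemma GC.mono {col : α → α → Fin k} {w : α → ℝ} {c : Fin k} {Δ b : ℕ} {β ρ m0 : ℝ}
    {Y Y' : Finset α} {A : ℕ → Finset α} {T : Finset ℕ} (h : GC col w c Δ b β ρ m0 Y A T)
    (hY : Y ⊆ Y') : GC col w c Δ b β ρ m0 Y' A T :=
  ⟨h.1, fun i => (h.2.1 i).trans hY, h.2.2⟩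

end Pool.Agent.H27.RM
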