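import Pool.Agent.H27.RM.Defs

/-! # STATIC (proofs 344), abstract form

`c` is dead in `W` if no `Y ⊆ W` with `s ≤ mu w Y` has a good `c`-chain.  `PP`: colours dead in `W`;
`n` living colours outside `PP`; `s ≤ (δ σ) ^ n mu w W`. -/

namespace Pool.Agent.H27.RM

open Finset Classical Pool.Agent.H21.Poly Pool.Agent.H21.Tile Pool.Agent.H99.KR

theorem static_abs {α : Type*} [Fintype α] {k : ℕ} (col : α → α → Fin k) (w : α → ℝ)
    (hw0 : ∀ x, 0 ≤ w x) (D0 : Finset (Fin k)) (Δ b : ℕ) (β ρ m0 σ δ s : ℝ)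
    (hσ : 0 < σ) (hσ1 : σ ≤ 1) (hδ : 0 < δ) (hδ1 : δ ≤ 1)
    (hCH : ∀ Y : Finset α, s ≤ mu w Y → ∃ c, c ∉ D0 ∧ ∃ A T, GC col w c Δ b β ρ m0 Y A T ∧
      σ * mu w Y ≤ mu w (A 0)) :
    ∀ (n : ℕ) (PP : Finset (Fin k)), ((univ \ D0) \ PP).card = n → ∀ W : Finset α,
      s ≤ (δ * σ) ^ n * mu w W →
      (∀ c ∈ PP, ∀ Y ⊆ W, s ≤ mu w Y → ¬ ∃ A T, GC col w c Δ b β ρ m0 Y A T) →
      ∃ c, c ∉ D0 ∧ ∃ A T, GC col w c Δ b β ρ m0 W A T ∧
        ∀ Z ⊆ A 0, δ * mu w (A 0) ≤ mu w Z → ∃ A' T', GC col w c Δ b β ρ m0 Z A' T' := by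
  have hθ0 : 0 < δ * σ := mul_pos hδ hσ
  have hθ1 : δ * σ ≤ 1 := mul_le_one₀ hδ1 hσ.le hσ1
  have hmu : ∀ S : Finset α, 0 ≤ mu w S := fun S => sum_nonneg fun x _ => hw0 x
  intro n
  induction n with
  | zero =>
    intro PP hn W hW hdead
    obtain ⟨c, hc, A, T, hG, _⟩ := hCH W (by simpa using hW)
    have hcP : c ∈ PP := by
      by_contra hcon
      have h1 : c ∈ (univ \ D0) \ PP := by
        rw [mem_sdiff, mem_sdiff]; exact ⟨⟨mem_univ _, hc⟩, hcon⟩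
      rw [card_eq_zero] at hn
      rw [hn] at h1
      simp at h1
    exact absurd ⟨A, T, hG⟩ (hdead c hcP W le_rfl (by simpa using hW))
  | succ n ih =>
    intro PP hn W hW hdead
    have hWs : s ≤ mu w W := by
      refine hW.trans ?_
      have h1 : (δ * σ) ^ (n + 1) ≤ 1 := pow_le_one₀ hθ0.le hθ1
      calc (δ * σ) ^ (n + 1) * mu w W ≤ 1 * mu w W := mul_le_mul_of_nonneg_right h1 (hmu W)
        _ = mu w W := one_mul _
    obtain ⟨c, hc, A, T, hG, hA0⟩ := hCH W hWs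
    have hcP : c ∉ PP := fun hcP => hdead c hcP W le_rfl hWs ⟨A, T, hG⟩
    by_cases hall : ∀ Z ⊆ A 0, δ * mu w (A 0) ≤ mu w Z → ∃ A' T', GC col w c Δ b β ρ m0 Z A' T'
    · exact ⟨c, hc, A, T, hG, hall⟩
    push Not at hall
    obtain ⟨Z, hZA, hZm, hZn⟩ := hall
    have hZW : Z ⊆ W := hZA.trans (hG.2.1 0)
    have hcard : ((univ \ D0) \ insert c PP).card = n := by
      have h1 : (univ \ D0) \ insert c PP = ((univ \ D0) \ PP).erase c := by
        ext x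
        simp only [mem_sdiff, mem_univ, true_and, mem_insert, not_or, mem_erase]
        tauto
      have h2 : c ∈ (univ \ D0) \ PP := by
        rw [mem_sdiff, mem_sdiff]; exact ⟨⟨mem_univ _, hc⟩, hcP⟩
      rw [h1, card_erase_of_mem h2, hn]
      rfl
    have hZs : s ≤ (δ * σ) ^ n * mu w Z := by
      refine hW.trans ?_
      have h1 : δ * σ * mu w W ≤ mu w Z := by
        calc δ * σ * mu w W = δ * (σ * mu w W) := by ring
          _ ≤ δ * mu w (A 0) := mul_le_mul_of_nonneg_left hA0 hδ.le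
          _ ≤ mu w Z := hZm
      calc (δ * σ) ^ (n + 1) * mu w W = (δ * σ) ^ n * (δ * σ * mu w W) := by ring
        _ ≤ (δ * σ) ^ n * mu w Z := mul_le_mul_of_nonneg_left h1 (by positivity)
    obtain ⟨c', hc', A', T', hG', hall'⟩ := ih (insert c PP) hcard Z hZs (by
      intro c' hc' Y hY hYs
      rw [mem_insert] at hc'
      rcases hc' with rfl | hc'
      · rintro ⟨A', T', hG'⟩
        exact hZn A' T' (hG'.mono hY)
      · exact hdead c' hc' Y (hY.trans hZW) hYs)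
    exact ⟨c', hc', A', T', hG'.mono hZW, hall'⟩

end Pool.Agent.H27.RM
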