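import Pool.Agent.H36.KR.ChainIn
import Pool.Agent.H27.RM.Static
import Pool.Agent.H27.RM.AbsCore

/-! # The static property with linear exponents (proofs 344) -/

namespace Pool.Agent.H27.RM

open Finset Classical Pool.Agent.H21.Poly Pool.Agent.H21.Tile Pool.Agent.H99.KR

/-- number of times -/
def eP (k Δ : ℕ) : ℕ := k * (3 * Δ)

/-- exponent of the floor `s = (δ σ) ^ k M` -/
def eS (k Δ p : ℕ) : ℕ := k * (p + (k + 1) * eP k Δ)

/-- exponent of `β` -/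
def eL (k Δ p : ℕ) : ℕ := 3 * eP k Δ + 2 * ((k + 1) * eP k Δ) + eS k Δ p + Δ + k + 3

/-- exponent of `ρ` -/
def eA (k Δ p : ℕ) : ℕ := eL k Δ p + 2 + (k + 1) * eP k Δ + eS k Δ p + Δ

/-- exponent of mass and density -/
def eB (k Δ p : ℕ) : ℕ := 2 * ((k + 1) * eP k Δ) + 3 + 2 * eS k Δ p

/-- exponent of size -/
def eB' (k Δ p : ℕ) : ℕ := eL k Δ p + 2 + (k + 1) * eP k Δ + eS k Δ p

lemma e_cond (k Δ p : ℕ) (hk : 0 < k) (hΔ : 0 < Δ) :
    4 ^ eP k Δ * k * (1 + (eP k Δ + 1) * 2 ^ eA k Δ p * 2 ^ ((k + 1) * eP k Δ)) ^ Δ <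
      2 ^ (eL k Δ p * (2 * Δ)) := by
  obtain ⟨P, hP⟩ : ∃ P, P = eP k Δ := ⟨_, rfl⟩
  obtain ⟨Sx, hS⟩ : ∃ S, S = eS k Δ p := ⟨_, rfl⟩
  obtain ⟨mP, hmP⟩ : ∃ mP, mP = (k + 1) * eP k Δ := ⟨_, rfl⟩
  have hL : eL k Δ p = 3 * P + 2 * mP + Sx + Δ + k + 3 := by rw [eL, hP, hS, hmP]
  have hA : eA k Δ p = eL k Δ p + 2 + mP + Sx + Δ := by rw [eA, hmP, hS]
  rw [← hmP, ← hP]
  obtain ⟨a, ha⟩ : ∃ a, a = eA k Δ p := ⟨_, rfl⟩
  obtain ⟨L, hL'⟩ : ∃ L, L = eL k Δ p := ⟨_, rfl⟩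
  rw [← ha, ← hL']
  rw [← ha, ← hL'] at hA
  rw [← hL'] at hL
  have h1 : 1 + (P + 1) * 2 ^ a * 2 ^ mP ≤ 2 ^ (P + a + mP + 1) := by
    have e1 : P + 1 ≤ 2 ^ P := Nat.lt_two_pow_self
    have e2 : (P + 1) * 2 ^ a * 2 ^ mP ≤ 2 ^ P * 2 ^ a * 2 ^ mP := by gcongr
    have e3 : 2 ^ P * 2 ^ a * 2 ^ mP = 2 ^ (P + a + mP) := by rw [pow_add, pow_add]
    have e4 : 2 ^ (P + a + mP + 1) = 2 ^ (P + a + mP) + 2 ^ (P + a + mP) := by rw [pow_succ]; ring
    have e5 : 1 ≤ 2 ^ (P + a + mP) := Nat.one_le_two_pow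
    omega
  have h2 : (1 + (P + 1) * 2 ^ a * 2 ^ mP) ^ Δ ≤ 2 ^ ((P + a + mP + 1) * Δ) := by
    rw [pow_mul]; exact Nat.pow_le_pow_left h1 Δ
  have h3 : 4 ^ P * k < 2 ^ (2 * P + k) := by
    rw [pow_add, pow_mul]
    have : k < 2 ^ k := Nat.lt_two_pow_self
    norm_num
    exact this
  calc 4 ^ P * k * (1 + (P + 1) * 2 ^ a * 2 ^ mP) ^ Δ
      ≤ 4 ^ P * k * 2 ^ ((P + a + mP + 1) * Δ) := by gcongr
    _ < 2 ^ (2 * P + k) * 2 ^ ((P + a + mP + 1) * Δ) := by gcongr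
    _ = 2 ^ (2 * P + k + (P + a + mP + 1) * Δ) := by rw [← pow_add]
    _ ≤ 2 ^ (L * (2 * Δ)) := by
        apply Nat.pow_le_pow_right (by norm_num)
        have e1 : 2 * P + k ≤ (2 * P + k) * Δ := Nat.le_mul_of_pos_right _ hΔ
        have e2 : 2 * P + k + (P + a + mP + 1) ≤ 2 * L := by rw [hA]; omega
        calc 2 * P + k + (P + a + mP + 1) * Δ ≤ (2 * P + k) * Δ + (P + a + mP + 1) * Δ := by omega
          _ = (2 * P + k + (P + a + mP + 1)) * Δ := by ring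
          _ ≤ 2 * L * Δ := Nat.mul_le_mul_right _ e2
          _ = L * (2 * Δ) := by ring

lemma mu_le_mass {α : Type*} [Fintype α] {w : α → ℝ} (hw0 : ∀ x, 0 ≤ w x) (A : Finset α) :
    mu w A ≤ mass w := sum_le_sum_of_subset_of_nonneg (subset_univ A) fun x _ _ => hw0 x

lemma monoSet_empty {α : Type*} {k : ℕ} (F : (r : ℕ) → SimpleGraph (Fin r)) (col : α → α → Fin k)
    (c : Fin k) : MonoSet F col ∅ :=
  ⟨c, 0, fun i => i.elim0, fun i => i.elim0, by ext x; simp, fun i => i.elim0⟩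

lemma two_mul_le_two_pow (k : ℕ) : 2 * k ≤ 2 ^ (k + 1) := by
  have : k < 2 ^ k := Nat.lt_two_pow_self
  rw [pow_succ]; omega

theorem staticP_e {α : Type*} [Fintype α] [Nonempty α] {k : ℕ} (F : (r : ℕ) → SimpleGraph (Fin r))
    (Δ : ℕ) (hΔ : 0 < Δ) (hdeg : ∀ r x, (univ.filter ((F r).Adj x)).card ≤ Δ)
    (col : α → α → Fin k) (hsymm : ∀ a b, col a b = col b a) (r p : ℕ) :
    StaticP F col Δ r p (eB k Δ p) (eB' k Δ p) := by
  intro D hD w hw0 hw1 he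
  have hDne : (univ \ D).Nonempty := by rw [← card_pos]; omega
  obtain ⟨c0, hc0⟩ := hDne
  have hk : 0 < k := c0.pos
  have hc0' : c0 ∉ D := (mem_sdiff.mp hc0).2
  have hM0 : 0 ≤ mass w := mass_nonneg hw0
  have hhalf : ∀ n : ℕ, (0 : ℝ) < (1 / 2) ^ n := fun n => by positivity
  have hMD : 1 ≤ MD Δ := by unfold MD; omega
  rcases hM0.eq_or_lt with hM | hM
  · refine ⟨c0, hc0', w, hw0, fun _ => le_rfl, by rw [← hM]; simp, ?_⟩
    intro L U _ _ hs
    rw [← hM, mul_zero] at hs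
    have hL : L = ∅ := by
      rw [← card_eq_zero]
      have h1 : (0 : ℝ) ≤ U.card := Nat.cast_nonneg _
      have h2 : (MD Δ * L.card : ℝ) ≤ 0 := by linarith
      have h3 : MD Δ * L.card ≤ 0 := by exact_mod_cast h2
      have h4 : L.card ≤ MD Δ * L.card := Nat.le_mul_of_pos_left _ hMD
      omega
    exact ⟨∅, by simp, disjoint_empty_left _, by simp, by rw [hL, union_empty]; exact monoSet_empty F col c0⟩
  obtain ⟨mP, hmP⟩ : ∃ mP, mP = (k + 1) * eP k Δ := ⟨_, rfl⟩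
  obtain ⟨Sx, hSx⟩ : ∃ S, S = eS k Δ p := ⟨_, rfl⟩
  have hSx' : Sx = k * (p + mP) := by rw [hSx, eS, hmP]
  have hBe : eB k Δ p = (2 * mP + 3) + 2 * Sx := by rw [eB, ← hmP, ← hSx]
  obtain ⟨Lx, hLx⟩ : ∃ L, L = eL k Δ p := ⟨_, rfl⟩
  have hAe : eA k Δ p = Lx + 2 + mP + Sx + Δ := by rw [eA, ← hmP, ← hSx, ← hLx]
  have hB'e : eB' k Δ p = Lx + 2 + mP + Sx := by rw [eB', ← hmP, ← hSx, ← hLx]
  obtain ⟨s, hs⟩ : ∃ s : ℝ, s = (1 / 2) ^ Sx * mass w := ⟨_, rfl⟩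
  have hs0 : 0 < s := by rw [hs]; exact mul_pos (hhalf _) hM
  obtain ⟨m0, hm0⟩ : ∃ m0 : ℝ, m0 = (1 / 2) ^ mP * s := ⟨_, rfl⟩
  have hm00 : 0 < m0 := by rw [hm0]; exact mul_pos (hhalf _) hs0
  have hCH : ∀ Y : Finset α, s ≤ mu w Y → ∃ c, c ∉ D ∧ ∃ A T,
      GC col w c Δ (2 * Δ) ((1 / 2) ^ Lx) ((1 / 2) ^ eA k Δ p) m0 Y A T ∧
      (1 / 2) ^ mP * mu w Y ≤ mu w (A 0) := by
    intro Y hY
    have hYp : 0 < mu w Y := hs0.trans_le hY
    obtain ⟨A, cc, h1, h2, h3, h4, h5⟩ := H36.KR.chain_in col D ⟨c0, hc0⟩ w hw0 Y hYp Δ (k + 1)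
      (eP k Δ) (2 * Δ) Lx (eA k Δ p) (two_mul_le_two_pow k) (by
        have := e_cond k Δ p hk hΔ
        rw [← hLx] at this
        exact_mod_cast this)
      (by
        rw [← hmP]
        have e1 : ∑ x ∈ Y, w x * mu w (Y.filter (fun y => col x y ∈ D)) ≤ eD col D w w := by
          unfold eD nbw mu
          calc ∑ x ∈ Y, w x * ∑ y ∈ Y.filter (fun y => col x y ∈ D), w y
              ≤ ∑ x ∈ Y, w x * ∑ y, (if col x y ∈ D then w y else 0) := by
                apply sum_le_sum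
                intro x _
                apply mul_le_mul_of_nonneg_left _ (hw0 x)
                rw [← sum_filter]
                exact sum_le_sum_of_subset_of_nonneg (filter_subset_filter _ (subset_univ Y))
                  fun y _ _ => hw0 y
            _ ≤ ∑ x, w x * ∑ y, (if col x y ∈ D then w y else 0) := by
                apply sum_le_sum_of_subset_of_nonneg (subset_univ Y)
                intro x _ _
                apply mul_nonneg (hw0 x)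
                apply sum_nonneg
                intro y _
                split_ifs
                · exact hw0 y
                · exact le_rfl
        calc 8 * ∑ x ∈ Y, w x * mu w (Y.filter (fun y => col x y ∈ D))
            ≤ 8 * ((1 / 2 : ℝ) ^ (2 * mP + 3 + 2 * Sx) * mass w ^ 2) := by
              rw [← hBe]; exact mul_le_mul_of_nonneg_left (e1.trans he) (by norm_num)
          _ = ((1 / 2) ^ mP * s) ^ 2 := by
              have e2 : (1 / 2 : ℝ) ^ (2 * mP + 3 + 2 * Sx) =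
                  ((1 / 2) ^ mP) ^ 2 * (1 / 2) ^ 3 * ((1 / 2) ^ Sx) ^ 2 := by
                rw [pow_add, pow_add, ← pow_mul, ← pow_mul, mul_comm mP, mul_comm Sx]
              rw [hs, e2]; ring
          _ ≤ ((1 / 2) ^ mP * mu w Y) ^ 2 := by gcongr)
    rw [← hmP] at h4
    obtain ⟨c, _, hc⟩ := exists_le_card_fiber_of_mul_le_card_of_maps_to (s := Icc 1 (eP k Δ))
      (t := (univ : Finset (Fin k))) (f := cc) (n := 3 * Δ) (fun _ _ => mem_univ _)
      ⟨c0, mem_univ _⟩ (by rw [card_univ, Fintype.card_fin, Nat.card_Icc, eP]; omega)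
    have hcD : c ∉ D := by
      have hne : ((Icc 1 (eP k Δ)).filter (fun i => cc i = c)).Nonempty := by
        rw [← card_pos]; omega
      obtain ⟨i, hi⟩ := hne
      rw [mem_filter] at hi
      rw [← hi.2]
      exact h1 i
    refine ⟨c, hcD, A, (Icc 1 (eP k Δ)).filter (fun i => cc i = c), ⟨h2, h3, ?_, ?_, by omega, h5 c⟩,
      h4 0⟩
    · intro i
      rw [hm0]
      exact (mul_le_mul_of_nonneg_left hY (hhalf _).le).trans (h4 i)
    · intro i hi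
      rw [mem_filter, mem_Icc] at hi
      exact hi.1.1
  obtain ⟨c, hc, A, T, hG, hall⟩ := static_abs col w hw0 D Δ (2 * Δ) ((1 / 2) ^ Lx)
    ((1 / 2) ^ eA k Δ p) m0 ((1 / 2) ^ mP) ((1 / 2) ^ p) s (hhalf _)
    (pow_le_one₀ (by norm_num) (by norm_num)) (hhalf _) (pow_le_one₀ (by norm_num) (by norm_num))
    hCH _ ∅ rfl univ (by
      have hn : ((univ \ D) \ (∅ : Finset (Fin k))).card ≤ k := by
        refine (card_le_univ _).trans ?_
        rw [Fintype.card_fin]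
      have h1 : mu w univ = mass w := rfl
      rw [h1, hs]
      apply mul_le_mul_of_nonneg_right _ hM0
      rw [← pow_add, ← pow_mul, hSx']
      apply pow_le_pow_of_le_one (by norm_num) (by norm_num)
      rw [mul_comm k]
      exact Nat.mul_le_mul_left _ hn) (by simp)
  have hmass : mass (fun x => if x ∈ A 0 then w x else 0) = mu w (A 0) := by
    unfold mass mu
    rw [← sum_filter]
    apply sum_congr _ fun _ _ => rfl
    ext x; simp
  have hA0M : mu w (A 0) ≤ mass w := mu_le_mass hw0 _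
  have hm0e : m0 = (1 / 2) ^ (mP + Sx) * mass w := by rw [hm0, hs, pow_add]; ring
  refine ⟨c, hc, fun x => if x ∈ A 0 then w x else 0, ?_, ?_, ?_, ?_⟩
  · intro x
    beta_reduce
    split_ifs
    · exact hw0 x
    · exact le_rfl
  · intro x
    beta_reduce
    split_ifs
    · exact le_rfl
    · exact hw0 x
  · rw [hmass]
    refine le_trans ?_ (hG.2.2.1 0)
    rw [hm0e, hBe]
    apply mul_le_mul_of_nonneg_right _ hM0
    exact pow_le_pow_of_le_one (by norm_num) (by norm_num) (by omega)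
  · intro L U hLw hL hsz
    rw [hmass] at hL hsz
    refine absorb_core F Δ hdeg col hsymm w hw0 hw1 (2 * Δ) ((1 / 2) ^ Lx) ((1 / 2) ^ eA k Δ p) m0
      (hhalf _) (hhalf _).le hm00 ?_ c A T (hG.mono (subset_univ _)) L U hLw ?_ ?_
    · rw [hm0e, hAe]
      have h1 : (Δ : ℝ) * (1 / 2) ^ Δ ≤ 1 := by
        have h2 : (Δ : ℝ) ≤ 2 ^ Δ := by exact_mod_cast Nat.lt_two_pow_self.le
        have h3 : (2 : ℝ) ^ Δ * (1 / 2) ^ Δ = 1 := by rw [← mul_pow]; norm_num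
        calc (Δ : ℝ) * (1 / 2) ^ Δ ≤ 2 ^ Δ * (1 / 2) ^ Δ :=
              mul_le_mul_of_nonneg_right h2 (hhalf _).le
          _ = 1 := h3
      calc (Δ : ℝ) * ((1 / 2) ^ (Lx + 2 + mP + Sx + Δ) * mass w)
          = (Δ * (1 / 2) ^ Δ) * ((1 / 2) ^ (Lx + 2 + mP + Sx) * mass w) := by rw [pow_add]; ring
        _ ≤ 1 * ((1 / 2) ^ (Lx + 2 + mP + Sx) * mass w) :=
            mul_le_mul_of_nonneg_right h1 (mul_nonneg (hhalf _).le hM0)
        _ = (1 / 2) ^ Lx * ((1 / 2) ^ (mP + Sx) * mass w) / 4 := by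
            rw [show Lx + 2 + mP + Sx = Lx + (mP + Sx) + 2 by ring, pow_add, pow_add]; ring
    · intro v hv
      apply hall _ (filter_subset _ _)
      refine (hL v hv).trans (le_of_eq ?_)
      unfold nbw mu
      rw [← sum_filter]
      have h1 : ∑ y ∈ univ.filter (fun y => col v y ∈ ({c} : Finset (Fin k))),
          (if y ∈ A 0 then w y else 0) =
          ∑ y ∈ (univ.filter (fun y => col v y ∈ ({c} : Finset (Fin k)))).filter (fun y => y ∈ A 0),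
            w y := (sum_filter _ _).symm
      rw [h1]
      apply sum_congr _ fun _ _ => rfl
      ext y
      simp only [mem_filter, mem_univ, true_and, mem_singleton]
      exact and_comm
    · refine hsz.trans ?_
      rw [hm0e, hB'e]
      calc (1 / 2 : ℝ) ^ (Lx + 2 + mP + Sx) * mu w (A 0)
          ≤ (1 / 2) ^ (Lx + 2 + mP + Sx) * mass w := mul_le_mul_of_nonneg_left hA0M (hhalf _).le
        _ = (1 / 2) ^ Lx * ((1 / 2) ^ (mP + Sx) * mass w) / 4 := by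
            rw [show Lx + 2 + mP + Sx = Lx + (mP + Sx) + 2 by ring, pow_add, pow_add]; ring

lemma staticP_mono {α : Type*} [Fintype α] {k : ℕ} {F : (r : ℕ) → SimpleGraph (Fin r)}
    {col : α → α → Fin k} {Δ r p B B' B1 B1' : ℕ} (h : StaticP F col Δ r p B B') (hB : B ≤ B1)
    (hB' : B' ≤ B1') : StaticP F col Δ r p B1 B1' := by
  intro D hD w hw0 hw1 he
  have hM0 : 0 ≤ mass w := mass_nonneg hw0
  have hp : (1 / 2 : ℝ) ^ B1 ≤ (1 / 2) ^ B := pow_le_pow_of_le_one (by norm_num) (by norm_num) hB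
  have hp' : (1 / 2 : ℝ) ^ B1' ≤ (1 / 2) ^ B' :=
    pow_le_pow_of_le_one (by norm_num) (by norm_num) hB'
  obtain ⟨c, hc, w', h1, h2, h3, h4⟩ := h D hD w hw0 hw1
    (he.trans (mul_le_mul_of_nonneg_right hp (by positivity)))
  refine ⟨c, hc, w', h1, h2, (mul_le_mul_of_nonneg_right hp hM0).trans h3, ?_⟩
  intro L U hLw hL hs
  exact h4 L U hLw hL (hs.trans (mul_le_mul_of_nonneg_right hp' (mass_nonneg h1)))

lemma eP_le (k Δ : ℕ) : eP k Δ = 3 * k * Δ := by unfold eP; ring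

/-- THE STATIC PROPERTY with linear exponents. -/
theorem staticP_linear (k : ℕ) : ∃ C : ℕ, ∀ Δ : ℕ, 0 < Δ → ∀ {α : Type*} [Fintype α] [Nonempty α]
    (F : (r : ℕ) → SimpleGraph (Fin r)), (∀ r x, (univ.filter ((F r).Adj x)).card ≤ Δ) →
    ∀ (col : α → α → Fin k), (∀ a b, col a b = col b a) → ∀ r p : ℕ,
    StaticP F col Δ r p (C * (Δ + p)) (C * (Δ + p)) := by
  refine ⟨100 * (k + 1) ^ 4, ?_⟩
  intro Δ hΔ α _ _ F hdeg col hsymm r p
  have hP : eP k Δ ≤ 3 * (k + 1) * (Δ + p) := by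
    rw [eP_le]; nlinarith
  have hmP : (k + 1) * eP k Δ ≤ 3 * (k + 1) ^ 2 * (Δ + p) := by
    calc (k + 1) * eP k Δ ≤ (k + 1) * (3 * (k + 1) * (Δ + p)) := Nat.mul_le_mul_left _ hP
      _ = 3 * (k + 1) ^ 2 * (Δ + p) := by ring
  have hS : eS k Δ p ≤ 4 * (k + 1) ^ 3 * (Δ + p) := by
    unfold eS
    calc k * (p + (k + 1) * eP k Δ) ≤ (k + 1) * ((k + 1) ^ 2 * (Δ + p) + 3 * (k + 1) ^ 2 * (Δ + p)) := by
          apply Nat.mul_le_mul (by omega)
          apply add_le_add _ hmP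
          have h1 : 1 ≤ (k + 1) ^ 2 := Nat.one_le_pow _ _ (by omega)
          calc p ≤ 1 * (Δ + p) := by omega
            _ ≤ (k + 1) ^ 2 * (Δ + p) := Nat.mul_le_mul_right _ h1
      _ = 4 * (k + 1) ^ 3 * (Δ + p) := by ring
  have e1 : (Δ + p) ≤ (k + 1) ^ 4 * (Δ + p) :=
    Nat.le_mul_of_pos_left _ (by positivity)
  have e2 : 3 * (k + 1) * (Δ + p) ≤ 3 * (k + 1) ^ 4 * (Δ + p) := by
    apply Nat.mul_le_mul_right
    apply Nat.mul_le_mul_left
    calc k + 1 = (k + 1) ^ 1 := (pow_one _).symm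
      _ ≤ (k + 1) ^ 4 := Nat.pow_le_pow_right (by omega) (by omega)
  have e3 : 3 * (k + 1) ^ 2 * (Δ + p) ≤ 3 * (k + 1) ^ 4 * (Δ + p) := by
    apply Nat.mul_le_mul_right
    apply Nat.mul_le_mul_left
    exact Nat.pow_le_pow_right (by omega) (by omega)
  have e4 : 4 * (k + 1) ^ 3 * (Δ + p) ≤ 4 * (k + 1) ^ 4 * (Δ + p) := by
    apply Nat.mul_le_mul_right
    apply Nat.mul_le_mul_left
    exact Nat.pow_le_pow_right (by omega) (by omega)
  have e5 : k ≤ (k + 1) ^ 4 * (Δ + p) := by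
    calc k ≤ (k + 1) * 1 := by omega
      _ ≤ (k + 1) ^ 4 * (Δ + p) := by
        apply Nat.mul_le_mul _ (by omega)
        calc k + 1 = (k + 1) ^ 1 := (pow_one _).symm
          _ ≤ (k + 1) ^ 4 := Nat.pow_le_pow_right (by omega) (by omega)
  have e6 : 1 ≤ (k + 1) ^ 4 * (Δ + p) := by
    have : 0 < (k + 1) ^ 4 * (Δ + p) := by positivity
    exact this
  obtain ⟨X, hX⟩ : ∃ X, X = (k + 1) ^ 4 * (Δ + p) := ⟨_, rfl⟩
  have f2 : 3 * (k + 1) ^ 4 * (Δ + p) = 3 * X := by rw [hX]; ring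
  have f4 : 4 * (k + 1) ^ 4 * (Δ + p) = 4 * X := by rw [hX]; ring
  have f5 : 100 * (k + 1) ^ 4 * (Δ + p) = 100 * X := by rw [hX]; ring
  rw [← hX] at e1 e5 e6
  rw [f2] at e2 e3
  rw [f4] at e4
  rw [f5]
  apply staticP_mono (staticP_e F Δ hΔ hdeg col hsymm r p)
  · unfold eB; omega
  · unfold eB' eL; omega

end Pool.Agent.H27.RM
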